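import Mathlib
import Pool.Agent.H71.AAE.Defs

/-!
# Project AAE, module H: unimodular rows with a monic entry (Horrocks, Vaserstein)
-/

set_option autoImplicit false
set_option linter.unusedSectionVars false

open Polynomial

namespace Pool.Agent.H71.AAE

universe u

namespace HR

section General

variable {ι : Type} [Fintype ι] [DecidableEq ι]

/-- change of rings for invertible matrices -/
def mg {R S : Type u} [CommRing R] [CommRing S] (f : R →+* S) (G : (Matrix ι ι R)ˣ) :
    (Matrix ι ι S)ˣ :=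
  Units.map (f.mapMatrix (m := ι)).toMonoidHom G

lemma coe_mg {R S : Type u} [CommRing R] [CommRing S] (f : R →+* S) (G : (Matrix ι ι R)ˣ) :
    ((mg f G : (Matrix ι ι S)ˣ) : Matrix ι ι S) = (G : Matrix ι ι R).map f := rfl

lemma mg_mul {R S : Type u} [CommRing R] [CommRing S] (f : R →+* S) (G H : (Matrix ι ι R)ˣ) :
    mg f (G * H) = mg f G * mg f H := map_mul _ _ _

lemma mg_inv {R S : Type u} [CommRing R] [CommRing S] (f : R →+* S) (G : (Matrix ι ι R)ˣ) :
    mg f G⁻¹ = (mg f G)⁻¹ := map_inv _ _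

lemma mg_one {R S : Type u} [CommRing R] [CommRing S] (f : R →+* S) :
    mg f (1 : (Matrix ι ι R)ˣ) = 1 := map_one _

lemma mg_comp {R S T : Type u} [CommRing R] [CommRing S] [CommRing T] (f : R →+* S) (g : S →+* T)
    (G : (Matrix ι ι R)ˣ) : mg g (mg f G) = mg (g.comp f) G := by
  apply Units.ext
  rw [coe_mg, coe_mg, coe_mg, Matrix.map_map]
  rfl

lemma mg_id {R : Type u} [CommRing R] (G : (Matrix ι ι R)ˣ) : mg (RingHom.id R) G = G := by
  apply Units.ext
  rw [coe_mg]
  ext i j
  simp

lemma vec_map {R S : Type u} [CommRing R] [CommRing S] (f : R →+* S) (v : ι → R)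
    (M : Matrix ι ι R) : Matrix.vecMul (f ∘ v) (M.map f) = f ∘ (Matrix.vecMul v M) := by
  funext i
  exact (RingHom.map_vecMul f M v i).symm

lemma mg_vec {R S : Type u} [CommRing R] [CommRing S] (f : R →+* S) (v : ι → R)
    (G : (Matrix ι ι R)ˣ) :
    Matrix.vecMul (f ∘ v) (mg f G : Matrix ι ι S) = f ∘ (Matrix.vecMul v (G : Matrix ι ι R)) :=
  vec_map f v G

/-- equivalence of rows under the general linear group -/
def GLR {R : Type u} [CommRing R] (v w : ι → R) : Prop :=
  ∃ G : (Matrix ι ι R)ˣ, Matrix.vecMul v (G : Matrix ι ι R) = w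

/-- isotopy of rows -/
def Isot {R : Type u} [CommRing R] (v w : ι → R) : Prop :=
  ∃ G : (Matrix ι ι R[X])ˣ, mg (evalRingHom 0) G = 1 ∧
    Matrix.vecMul v (mg (evalRingHom 1) G : Matrix ι ι R) = w

lemma Isot.glr {R : Type u} [CommRing R] {v w : ι → R} (h : Isot v w) : GLR v w := by
  obtain ⟨G, _, h2⟩ := h
  exact ⟨_, h2⟩

lemma GLR.trans {R : Type u} [CommRing R] {v w z : ι → R} (h : GLR v w) (h' : GLR w z) :
    GLR v z := by
  obtain ⟨G, rfl⟩ := h
  obtain ⟨H, rfl⟩ := h'
  exact ⟨G * H, by rw [Units.val_mul, ← Matrix.vecMul_vecMul]⟩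

lemma GLR.symm {R : Type u} [CommRing R] {v w : ι → R} (h : GLR v w) : GLR w v := by
  obtain ⟨G, rfl⟩ := h
  exact ⟨G⁻¹, by rw [Matrix.vecMul_vecMul, ← Units.val_mul, mul_inv_cancel, Units.val_one,
    Matrix.vecMul_one]⟩

lemma Isot.refl {R : Type u} [CommRing R] (v : ι → R) : Isot v v :=
  ⟨1, mg_one _, by rw [mg_one, Units.val_one, Matrix.vecMul_one]⟩

lemma Isot.trans {R : Type u} [CommRing R] {v w z : ι → R} (h : Isot v w) (h' : Isot w z) :
    Isot v z := by
  obtain ⟨G, hG, rfl⟩ := h
  obtain ⟨H, hH, rfl⟩ := h'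
  exact ⟨G * H, by rw [mg_mul, hG, hH, one_mul], by
    rw [mg_mul, Units.val_mul, ← Matrix.vecMul_vecMul]⟩

lemma span_vecMul_le {R : Type u} [CommRing R] (v : ι → R) (M : Matrix ι ι R) :
    Ideal.span (Set.range (Matrix.vecMul v M)) ≤ Ideal.span (Set.range v) := by
  rw [Ideal.span_le]
  rintro _ ⟨j, rfl⟩
  show ∑ i, v i * M i j ∈ Ideal.span (Set.range v)
  exact Ideal.sum_mem _ fun i _ =>
    Ideal.mul_mem_right _ _ (Ideal.subset_span (Set.mem_range_self i))

lemma GLR.span_top {R : Type u} [CommRing R] {v w : ι → R} (h : GLR v w)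
    (hu : Ideal.span (Set.range v) = ⊤) : Ideal.span (Set.range w) = ⊤ := by
  obtain ⟨G, hG⟩ := h.symm
  rw [eq_top_iff, ← hu, ← hG]
  exact span_vecMul_le w _

/-- the transvection as a unit -/
def tv {R : Type u} [CommRing R] (i j : ι) (h : i ≠ j) (c : R) : (Matrix ι ι R)ˣ where
  val := Matrix.transvection i j c
  inv := Matrix.transvection i j (-c)
  val_inv := by rw [Matrix.transvection_mul_transvection_same i j h, add_neg_cancel,
    Matrix.transvection_zero]
  inv_val := by rw [Matrix.transvection_mul_transvection_same i j h, neg_add_cancel,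
    Matrix.transvection_zero]

lemma vecMul_transvection {R : Type u} [CommRing R] (v : ι → R) (i j : ι) (c : R) :
    Matrix.vecMul v (Matrix.transvection i j c) = Function.update v j (v j + v i * c) := by
  funext k
  rw [Matrix.transvection, Matrix.vecMul_add, Matrix.vecMul_one, Pi.add_apply]
  by_cases hk : k = j
  · subst hk
    simp [Matrix.vecMul, dotProduct, Matrix.single_apply]
  · rw [Function.update_of_ne hk]
    have : Matrix.vecMul v (Matrix.single i j c) k = 0 := by
      simp [Matrix.vecMul, dotProduct, Ne.symm hk]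
    rw [this, add_zero]

lemma map_transvection {R S : Type u} [CommRing R] [CommRing S] (f : R →+* S) (i j : ι) (c : R) :
    (Matrix.transvection i j c).map f = Matrix.transvection i j (f c) := by
  ext a b
  simp only [Matrix.transvection, Matrix.map_apply, Matrix.add_apply, map_add, Matrix.one_apply,
    Matrix.single_apply]
  congr 1
  · split_ifs <;> simp
  · split_ifs <;> simp

lemma isot_add {R : Type u} [CommRing R] (v : ι → R) {i j : ι} (h : i ≠ j) (c : R) :
    Isot v (Function.update v j (v j + v i * c)) := by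
  refine ⟨tv i j h (C c * X), ?_, ?_⟩
  · apply Units.ext
    rw [coe_mg]
    show (Matrix.transvection i j (C c * X)).map (evalRingHom 0) = 1
    rw [map_transvection]
    simp
  · rw [coe_mg]
    show Matrix.vecMul v ((Matrix.transvection i j (C c * X)).map (evalRingHom 1)) = _
    rw [map_transvection, vecMul_transvection]
    simp

lemma isot_adds {R : Type u} [CommRing R] (v : ι → R) (i₀ : ι) (c : ι → R) :
    Isot v (fun j => if j = i₀ then v j else v j + v i₀ * c j) := by
  have key : ∀ s : Finset ι, Isot v (fun j => if j ∈ s ∧ j ≠ i₀ then v j + v i₀ * c j else v j) := by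
    intro s
    induction s using Finset.induction_on with
    | empty => simpa using Isot.refl v
    | insert a s ha ih =>
      by_cases hai : a = i₀
      · convert ih using 1
        funext j
        by_cases hj : j = a
        · subst hj
          simp [hai]
        · simp [Finset.mem_insert, hj]
      · refine ih.trans ?_
        have h := isot_add (fun j => if j ∈ s ∧ j ≠ i₀ then v j + v i₀ * c j else v j)
          (i := i₀) (j := a) (Ne.symm hai) (c a)
        convert h using 1
        funext j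
        by_cases hj : j = a
        · subst hj
          simp [ha, hai]
        · rw [Function.update_of_ne hj]
          simp [Finset.mem_insert, hj]
  convert key Finset.univ using 1
  funext j
  by_cases hj : j = i₀ <;> simp [hj]

lemma isot_single {R : Type u} [CommRing R] (i j : ι) :
    Isot (Pi.single i 1 : ι → R) (Pi.single j 1) := by
  by_cases hij : i = j
  · subst hij
    exact Isot.refl _
  · refine (isot_add (Pi.single i 1 : ι → R) hij 1).trans ?_
    have h := isot_add (Function.update (Pi.single i 1 : ι → R) j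
      ((Pi.single i 1 : ι → R) j + (Pi.single i 1 : ι → R) i * 1)) (Ne.symm hij) (-1)
    convert h using 1
    funext k
    by_cases hki : k = i
    · subst hki
      simp [hij]
    · rw [Function.update_of_ne hki]
      by_cases hkj : k = j
      · subst hkj
        simp [hki]
      · simp [hki, hkj]

lemma isot_of_one {R : Type u} [CommRing R] (v : ι → R) (i₀ : ι) (h : v i₀ = 1) (j₀ : ι) :
    Isot v (Pi.single j₀ 1) := by
  refine (isot_adds v i₀ (fun j => - v j)).trans ?_
  convert isot_single (R := R) i₀ j₀ using 1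
  funext j
  by_cases hj : j = i₀
  · subst hj
    simp [h]
  · simp [hj, h]

lemma glr_scale {R : Type u} [CommRing R] (v : ι → R) (i₀ : ι) (u : Rˣ) :
    GLR v (Function.update v i₀ (v i₀ * u)) := by
  refine ⟨⟨Matrix.diagonal (Function.update 1 i₀ (u : R)),
    Matrix.diagonal (Function.update 1 i₀ ((u⁻¹ : Rˣ) : R)), ?_, ?_⟩, ?_⟩
  · rw [Matrix.diagonal_mul_diagonal, ← Matrix.diagonal_one]
    congr 1
    funext i
    by_cases hi : i = i₀
    · subst hi; simp
    · simp [Function.update_of_ne hi]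
  · rw [Matrix.diagonal_mul_diagonal, ← Matrix.diagonal_one]
    congr 1
    funext i
    by_cases hi : i = i₀
    · subst hi; simp
    · simp [Function.update_of_ne hi]
  · funext i
    rw [Matrix.vecMul_diagonal]
    by_cases hi : i = i₀
    · subst hi; simp
    · simp [Function.update_of_ne hi]

/-! ### Local Horrocks -/

lemma exists_coeff_unit {O : Type u} [CommRing O] [IsLocalRing O] {d : ℕ} (w : ι → O[X]) (i₀ : ι)
    (hm : (w i₀).Monic) (hd : (w i₀).natDegree = d + 1) (hu : Ideal.span (Set.range w) = ⊤) :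
    ∃ i, i ≠ i₀ ∧ ∃ k, IsUnit ((w i).coeff k) := by
  by_contra hcon
  push Not at hcon
  have h1 : (1 : O[X]) ∈ Ideal.span (Set.range w) := by rw [hu]; trivial
  rw [Ideal.mem_span_range_iff_exists_fun] at h1
  obtain ⟨c, hc⟩ := h1
  have h2 := congrArg (mapRingHom (IsLocalRing.residue O)) hc
  rw [map_sum, Finset.sum_eq_single i₀, map_one, map_mul] at h2
  · have h3 : IsUnit (mapRingHom (IsLocalRing.residue O) (w i₀)) :=
      IsUnit.of_mul_eq_one _ (by rw [mul_comm]; exact h2)
    have h4 := natDegree_eq_zero_of_isUnit h3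
    rw [coe_mapRingHom, hm.natDegree_map, hd] at h4
    omega
  · intro i _ hi
    have h5 : mapRingHom (IsLocalRing.residue O) (w i) = 0 := by
      ext k
      rw [coe_mapRingHom, coeff_map, coeff_zero, IsLocalRing.residue_eq_zero_iff]
      exact hcon i hi k
    rw [map_mul, h5, mul_zero]
  · intro h
    exact absurd (Finset.mem_univ i₀) h

lemma exists_comb {O : Type u} [CommRing O] [Nontrivial O] {d : ℕ} (f g : O[X]) (hf : f.Monic)
    (hfd : f.natDegree = d + 1) (hg : g.degree < (d + 1 : ℕ)) (k : ℕ) (hk : IsUnit (g.coeff k)) :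
    ∃ α β : O[X], (f * α + g * β).degree < (d + 1 : ℕ) ∧ (f * α + g * β).coeff d = 1 := by
  let J : Ideal O :=
    { carrier := {c | ∃ α β : O[X], (f * α + g * β).degree < (d + 1 : ℕ) ∧
        (f * α + g * β).coeff d = c}
      add_mem' := by
        rintro a b ⟨α, β, h1, h2⟩ ⟨α', β', h1', h2'⟩
        refine ⟨α + α', β + β', ?_, ?_⟩
        · rw [show f * (α + α') + g * (β + β') = (f * α + g * β) + (f * α' + g * β') by ring]
          exact lt_of_le_of_lt (degree_add_le _ _) (max_lt h1 h1')
        · rw [show f * (α + α') + g * (β + β') = (f * α + g * β) + (f * α' + g * β') by ring,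
            coeff_add, h2, h2']
      zero_mem' := ⟨0, 0, by simp, by simp⟩
      smul_mem' := by
        rintro c a ⟨α, β, h1, h2⟩
        refine ⟨C c * α, C c * β, ?_, ?_⟩
        · rw [show f * (C c * α) + g * (C c * β) = C c * (f * α + g * β) by ring]
          rw [degree_lt_iff_coeff_zero] at h1 ⊢
          intro m hm
          rw [coeff_C_mul, h1 m hm, mul_zero]
        · rw [show f * (C c * α) + g * (C c * β) = C c * (f * α + g * β) by ring, coeff_C_mul, h2,
            smul_eq_mul] }
  have key : ∀ t, t ≤ d → ∀ α β : O[X], (f * α + g * β).degree < (d + 1 : ℕ) →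
      (f * α + g * β).coeff (d - t) ∈ J := by
    intro t
    induction t with
    | zero =>
      intro _ α β h
      exact ⟨α, β, h, rfl⟩
    | succ t ih =>
      intro ht α β h
      set e := f * α + g * β with he
      have h2 : f * (X * α - C (e.coeff d)) + g * (X * β) = X * e - C (e.coeff d) * f := by
        rw [he]; ring
      have h3 : (f * (X * α - C (e.coeff d)) + g * (X * β)).degree < ((d + 1 : ℕ) : WithBot ℕ) := by
        rw [h2, degree_lt_iff_coeff_zero]
        intro m hm
        obtain ⟨m', rfl⟩ : ∃ m', m = m' + 1 := ⟨m - 1, by omega⟩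
        rw [coeff_sub, coeff_X_mul, coeff_C_mul]
        rw [degree_lt_iff_coeff_zero] at h
        rcases Nat.lt_or_ge d m' with h5 | h5
        · rw [h m' (by omega), coeff_eq_zero_of_natDegree_lt (p := f) (by omega), mul_zero, sub_zero]
        · have : m' = d := by omega
          subst this
          rw [show f.coeff (m' + 1) = 1 by rw [← hfd]; exact hf, mul_one, sub_self]
      have h4 := ih (by omega) _ _ h3
      rw [h2, coeff_sub, coeff_C_mul] at h4
      obtain ⟨q, hq⟩ : ∃ q, d - t = q + 1 := ⟨d - t - 1, by omega⟩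
      rw [hq, coeff_X_mul] at h4
      have h5 : d - (t + 1) = q := by omega
      rw [h5]
      have h6 : e.coeff d ∈ J := ⟨α, β, h, rfl⟩
      have h7 := J.add_mem h4 (J.mul_mem_right (f.coeff (q + 1)) h6)
      rwa [sub_add_cancel] at h7
  have hkd : k ≤ d := by
    by_contra h
    rw [degree_lt_iff_coeff_zero] at hg
    rw [hg k (by omega)] at hk
    exact not_isUnit_zero hk
  have h1 := key (d - k) (by omega) 0 1 (by simpa using hg)
  rw [show d - (d - k) = k by omega] at h1
  simp only [mul_zero, mul_one, zero_add] at h1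
  have h2 : J = ⊤ := Ideal.eq_top_of_isUnit_mem J h1 hk
  have h3 : (1 : O) ∈ J := by rw [h2]; trivial
  exact h3

lemma horrocks {O : Type u} [CommRing O] [IsLocalRing O] (h3 : ∀ i j : ι, ∃ k, k ≠ i ∧ k ≠ j)
    (d : ℕ) : ∀ (v : ι → O[X]) (i₀ : ι), (v i₀).Monic → (v i₀).natDegree = d →
      Ideal.span (Set.range v) = ⊤ → ∀ j₀, Isot v (Pi.single j₀ 1) := by
  induction d with
  | zero =>
    intro v i₀ hm hd hu j₀
    exact isot_of_one v i₀ (hm.natDegree_eq_zero.mp hd) j₀
  | succ d ih =>
    intro v i₀ hm hd hu j₀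
    set w : ι → O[X] := fun j => if j = i₀ then v j else v j %ₘ v i₀ with hw
    have h1 : Isot v w := by
      have := isot_adds v i₀ (fun j => - (v j /ₘ v i₀))
      convert this using 1
      funext j
      rw [hw]
      by_cases hj : j = i₀
      · simp [hj]
      · simp only [hj, if_false]
        have := modByMonic_add_div (v j) (v i₀)
        linear_combination this
    have hw0 : w i₀ = v i₀ := by simp [hw]
    have hwd : ∀ j, j ≠ i₀ → (w j).degree < (d + 1 : ℕ) := by
      intro j hj
      simp only [hw, hj, if_false]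
      have := degree_modByMonic_lt (v j) hm
      rwa [degree_eq_natDegree hm.ne_zero, hd] at this
    have hwu := h1.glr.span_top hu
    obtain ⟨i, hi, k, hk⟩ := exists_coeff_unit w i₀ (by rw [hw0]; exact hm) (by rw [hw0]; exact hd)
      hwu
    obtain ⟨α, β, hg1, hg2⟩ := exists_comb (w i₀) (w i) (by rw [hw0]; exact hm)
      (by rw [hw0]; exact hd) (hwd i hi) k hk
    obtain ⟨j, hj1, hj2⟩ := h3 i₀ i
    set c : O := 1 - (w j).coeff d with hc
    have h4 := isot_add w (i := i₀) (j := j) (Ne.symm hj1) (α * C c)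
    set w' := Function.update w j (w j + w i₀ * (α * C c)) with hw'
    have h5 := isot_add w' (i := i) (j := j) (Ne.symm hj2) (β * C c)
    set w'' := Function.update w' j (w' j + w' i * (β * C c)) with hw''
    have h6 : w'' j = w j + (w i₀ * α + w i * β) * C c := by
      rw [hw'', Function.update_self, hw', Function.update_self, Function.update_of_ne
        (Ne.symm hj2)]
      ring
    have h7 : (w'' j).degree < (d + 1 : ℕ) := by
      rw [h6]
      refine lt_of_le_of_lt (degree_add_le _ _) (max_lt (hwd j hj1) ?_)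
      rw [degree_lt_iff_coeff_zero] at hg1 ⊢
      intro m hm
      rw [coeff_mul_C, hg1 m hm, zero_mul]
    have h8 : (w'' j).coeff d = 1 := by
      rw [h6, coeff_add, coeff_mul_C, hg2, hc]
      ring
    have h9 : (w'' j).natDegree = d := by
      apply le_antisymm
      · rw [natDegree_le_iff_degree_le]
        rw [degree_lt_iff_coeff_zero] at h7
        rw [degree_le_iff_coeff_zero]
        intro m hm
        exact h7 m (by exact_mod_cast hm)
      · exact le_natDegree_of_ne_zero (by rw [h8]; exact one_ne_zero)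
    have h10 : (w'' j).Monic := by
      rw [Monic, leadingCoeff, h9, h8]
    have h11 := h1.trans (h4.trans h5)
    exact h11.trans (ih w'' j h10 h9 (h11.glr.span_top hu) j₀)

/-! ### Vaserstein -/

/-- the substitution `t ↦ t + s x` -/
noncomputable def sb {A : Type u} [CommRing A] (s : A) : A[X] →+* A[X][X] :=
  eval₂RingHom (C.comp C) (C X + C (C s) * X)

/-- the substitution `x ↦ s x` -/
noncomputable def sc {A : Type u} [CommRing A] (s : A) : A[X][X] →+* A[X][X] :=
  eval₂RingHom C (C (C s) * X)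

lemma sb_zero {A : Type u} [CommRing A] : sb (0 : A) = C := by
  ext a <;> simp [sb]

lemma ev_sb {A : Type u} [CommRing A] (s : A) :
    (evalRingHom (0 : A[X])).comp (sb s) = RingHom.id _ := by
  ext a <;> simp [sb]

lemma ev_C {A : Type u} [CommRing A] (a : A[X]) :
    (evalRingHom a).comp C = RingHom.id _ := by
  ext a <;> simp

lemma ev_sc {A : Type u} [CommRing A] (s : A) :
    (evalRingHom (0 : A[X])).comp (sc s) = evalRingHom 0 := by
  ext a <;> simp [sc]

lemma sc_sb {A : Type u} [CommRing A] (c s : A) : (sc c).comp (sb s) = sb (c * s) := by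
  refine Polynomial.ringHom_ext (fun a => ?_) ?_
  · simp [sb, sc]
  · simp [sb, sc]
    ring

lemma sc_C {A : Type u} [CommRing A] (c : A) : (sc c).comp C = C := by
  ext a <;> simp [sc]

/-- the set of `s` for which `v(t + s x) G(t, x) = v(t)` is solvable with `G(t, 0) = 1` -/
def VS {A : Type u} [CommRing A] (v : ι → A[X]) : Ideal A where
  carrier := {s | ∃ G : (Matrix ι ι A[X][X])ˣ,
    Matrix.vecMul (sb s ∘ v) (G : Matrix ι ι A[X][X]) = C ∘ v ∧ mg (evalRingHom 0) G = 1}
  add_mem' := by
    rintro s s' ⟨G, h1, h2⟩ ⟨G', h1', h2'⟩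
    set Φ : A[X][X] →+* A[X][X] := eval₂RingHom (sb s') X with hΦ
    have e1 : Φ.comp (sb s) = sb (s + s') := by
      refine Polynomial.ringHom_ext (fun a => ?_) ?_
      · simp [hΦ, sb]
      · simp [hΦ, sb]
        ring
    have e2 : Φ.comp C = sb s' := by
      ext a <;> simp [hΦ]
    have e3 : (evalRingHom (0 : A[X])).comp Φ = evalRingHom 0 := by
      ext a <;> simp [hΦ, sb]
    refine ⟨mg Φ G * G', ?_, ?_⟩
    · rw [Units.val_mul, ← Matrix.vecMul_vecMul, ← e1]
      have h3 := mg_vec Φ (sb s ∘ v) G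
      rw [h1] at h3
      rw [RingHom.coe_comp, Function.comp_assoc, h3, ← Function.comp_assoc, ← RingHom.coe_comp, e2,
        h1']
    · rw [mg_mul, mg_comp, e3, h2, h2', one_mul]
  zero_mem' := ⟨1, by rw [Units.val_one, Matrix.vecMul_one, sb_zero], mg_one _⟩
  smul_mem' := by
    rintro c s ⟨G, h1, h2⟩
    refine ⟨mg (sc c) G, ?_, ?_⟩
    · have h3 := mg_vec (sc c) (sb s ∘ v) G
      rw [h1, ← Function.comp_assoc, ← Function.comp_assoc, ← RingHom.coe_comp, ← RingHom.coe_comp,
        sc_sb, sc_C] at h3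
      exact h3
    · rw [mg_comp, ev_sc, h2]

lemma VS_spec {A : Type u} [CommRing A] (v : ι → A[X]) (h : (1 : A) ∈ VS v) (a : A) :
    ∃ σ : (Matrix ι ι A[X])ˣ, Matrix.vecMul v (σ : Matrix ι ι A[X]) = (fun i => C ((v i).eval a)) ∧
      mg (evalRingHom a) σ = 1 := by
  obtain ⟨G, h1, h2⟩ := h
  set Θ : A[X][X] →+* A[X] := eval₂RingHom ((C : A →+* A[X]).comp (evalRingHom a)) (X - C a) with hΘ
  have e1 : Θ.comp (sb 1) = RingHom.id _ := by
    ext b <;> simp [hΘ, sb]
  have e2 : Θ.comp C = (C : A →+* A[X]).comp (evalRingHom a) := by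
    ext b <;> simp [hΘ]
  have e3 : (evalRingHom a).comp Θ = (evalRingHom a).comp (evalRingHom (0 : A[X])) := by
    ext b <;> simp [hΘ]
  refine ⟨mg Θ G, ?_, ?_⟩
  · have h3 := mg_vec Θ (sb 1 ∘ v) G
    rw [h1, ← Function.comp_assoc, ← Function.comp_assoc, ← RingHom.coe_comp, ← RingHom.coe_comp,
      e1, e2] at h3
    exact h3
  · rw [mg_comp, e3, ← mg_comp, h2, mg_one]

/-- denominators -/
def HasDen {A B : Type u} [CommRing A] [CommRing B] (f : A →+* B) (M : Submonoid A) : Prop :=
  ∀ b : B, ∃ m ∈ M, ∃ a, f m * b = f a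

lemma HasDen.poly {A B : Type u} [CommRing A] [CommRing B] {f : A →+* B} {M : Submonoid A}
    (h : HasDen f M) : HasDen (mapRingHom f) (M.map (C : A →+* A[X])) := by
  intro p
  induction p using Polynomial.induction_on' with
  | add p q hp hq =>
    obtain ⟨m, hm, a, ha⟩ := hp
    obtain ⟨m', hm', a', ha'⟩ := hq
    refine ⟨m * m', mul_mem hm hm', m' * a + m * a', ?_⟩
    rw [map_mul, map_add, map_mul, map_mul, ← ha, ← ha']
    ring
  | monomial n b =>
    obtain ⟨m, hm, a, ha⟩ := h b
    refine ⟨C m, ⟨m, hm, rfl⟩, monomial n a, ?_⟩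
    rw [coe_mapRingHom, map_C, map_monomial, C_mul_monomial, ha]

lemma HasDen.fin {A B : Type u} [CommRing A] [CommRing B] {f : A →+* B} {M : Submonoid A}
    (h : HasDen f M) {κ : Type} [Fintype κ] (P : κ → B) :
    ∃ m ∈ M, ∀ k, ∃ a, f m * P k = f a := by
  classical
  choose m hm a ha using fun k => h (P k)
  refine ⟨∏ k, m k, prod_mem fun k _ => hm k, fun k => ?_⟩
  obtain ⟨c, hc⟩ := Finset.dvd_prod_of_mem m (Finset.mem_univ k)
  refine ⟨c * a k, ?_⟩
  rw [hc, map_mul, map_mul, ← ha]
  ring

lemma VS_loc {A K : Type u} [CommRing A] [CommRing K] (f : A →+* K) (hf : Function.Injective f)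
    (M : Submonoid A) (hM : HasDen f M) (v : ι → A[X]) (σ : (Matrix ι ι K[X])ˣ)
    (hσ : Matrix.vecMul (mapRingHom f ∘ v) (σ : Matrix ι ι K[X]) =
      fun i => C (f ((v i).eval 0))) :
    ∃ s ∈ M, s ∈ VS v := by
  set vK : ι → K[X] := mapRingHom f ∘ v with hvK
  set F : A[X][X] →+* K[X][X] := mapRingHom (mapRingHom f) with hF
  have hfi : Function.Injective (mapRingHom f) := by
    rw [coe_mapRingHom]; exact map_injective f hf
  have hFi : Function.Injective F := by
    rw [hF, coe_mapRingHom]; exact map_injective _ hfi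
  set H : (Matrix ι ι K[X][X])ˣ := mg (sb 1) σ * (mg C σ)⁻¹ with hH
  have hH1 : Matrix.vecMul (sb 1 ∘ vK) (H : Matrix ι ι K[X][X]) = C ∘ vK := by
    have h1 := mg_vec (sb 1) vK σ
    have h2 := mg_vec C vK σ
    rw [hσ] at h1 h2
    have h3 : (sb 1 ∘ fun i => C (f ((v i).eval 0)) : ι → K[X][X]) =
        C ∘ fun i => C (f ((v i).eval 0)) := by
      funext i
      simp [sb]
    rw [hH, Units.val_mul, ← Matrix.vecMul_vecMul, h1, h3, ← h2, Matrix.vecMul_vecMul,
      ← Units.val_mul, mul_inv_cancel, Units.val_one, Matrix.vecMul_one]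
  have hH2 : mg (evalRingHom 0) H = 1 := by
    rw [hH, mg_mul, mg_inv, mg_comp, mg_comp, ev_sb, ev_C, mul_inv_cancel]
  have hD : HasDen F ((M.map (C : A →+* A[X])).map (C : A[X] →+* A[X][X])) := hM.poly.poly
  obtain ⟨m, ⟨_, ⟨s, hs, rfl⟩, rfl⟩, hm⟩ := hD.fin (Sum.elim
    (fun q : ι × ι => divX ((H : Matrix ι ι K[X][X]) q.1 q.2))
    (fun q : ι × ι => divX (((H⁻¹ : (Matrix ι ι K[X][X])ˣ) : Matrix ι ι K[X][X]) q.1 q.2)))
  have e1 : (sc (f s)).comp F = F.comp (sc s) := by
    ext a
    · simp [sc, hF]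
    · simp [sc, hF]
    · simp [sc, hF]
  have key : ∀ P : K[X][X], (∃ c : A[X], P.eval 0 = mapRingHom f c) →
      (∃ a, F (C (C s)) * divX P = F a) → ∃ Q, sc (f s) P = F Q := by
    rintro P ⟨c, hc⟩ ⟨a, ha⟩
    refine ⟨C c + X * sc s a, ?_⟩
    have h1 : P = C (mapRingHom f c) + X * divX P := by
      rw [← hc]
      have := divX_mul_X_add P
      rw [coeff_zero_eq_eval_zero] at this
      rw [mul_comm, add_comm]
      exact this.symm
    have h2 : sc (f s) (F a) = F (sc s a) := RingHom.congr_fun e1 a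
    rw [← ha, map_mul] at h2
    have h3 : sc (f s) P = C (mapRingHom f c) + (C (C (f s)) * X) * sc (f s) (divX P) := by
      conv_lhs => rw [h1]
      simp [sc]
    have h4 : sc (f s) (F (C (C s))) = C (C (f s)) := by
      simp [sc, hF]
    rw [h4] at h2
    rw [h3, map_add, map_mul, ← h2]
    simp only [hF, coe_mapRingHom, map_C, map_X]
    ring
  have hone : ∀ i j : ι, ∃ c : A[X], (1 : Matrix ι ι K[X]) i j = mapRingHom f c := by
    intro i j
    refine ⟨(1 : Matrix ι ι A[X]) i j, ?_⟩
    rw [Matrix.one_apply, Matrix.one_apply]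
    split_ifs <;> simp
  have hG : ∀ i j, ∃ Q, (mg (sc (f s)) H : Matrix ι ι K[X][X]) i j = F Q := by
    intro i j
    apply key
    · obtain ⟨c, hc⟩ := hone i j
      refine ⟨c, ?_⟩
      rw [← hc, ← Units.val_one, ← hH2]
      rfl
    · exact hm (Sum.inl (i, j))
  have hG' : ∀ i j, ∃ Q, ((mg (sc (f s)) H)⁻¹ : (Matrix ι ι K[X][X])ˣ).val i j = F Q := by
    intro i j
    rw [← mg_inv]
    apply key
    · obtain ⟨c, hc⟩ := hone i j
      refine ⟨c, ?_⟩
      rw [← hc, ← Units.val_one, ← inv_one, ← hH2, ← mg_inv]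
      rfl
    · exact hm (Sum.inr (i, j))
  choose g hg using hG
  choose g' hg' using hG'
  have eg : (Matrix.of g).map F = (mg (sc (f s)) H : Matrix ι ι K[X][X]) := by
    ext1 i j
    exact (hg i j).symm
  have eg' : (Matrix.of g').map F = ((mg (sc (f s)) H)⁻¹ : (Matrix ι ι K[X][X])ˣ).val := by
    ext1 i j
    exact (hg' i j).symm
  have hinj : Function.Injective (F.mapMatrix (m := ι)) := by
    intro a b hab
    ext1 i j
    exact hFi (congrFun (congrFun hab i) j)
  have m1 : Matrix.of g * Matrix.of g' = 1 := by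
    apply hinj
    rw [map_mul, map_one, RingHom.mapMatrix_apply, RingHom.mapMatrix_apply, eg, eg',
      ← Units.val_mul, mul_inv_cancel, Units.val_one]
  have m2 : Matrix.of g' * Matrix.of g = 1 := by
    apply hinj
    rw [map_mul, map_one, RingHom.mapMatrix_apply, RingHom.mapMatrix_apply, eg, eg',
      ← Units.val_mul, inv_mul_cancel, Units.val_one]
  refine ⟨s, hs, ⟨Matrix.of g, Matrix.of g', m1, m2⟩, ?_, ?_⟩
  · show Matrix.vecMul (sb s ∘ v) (Matrix.of g) = C ∘ v
    have h1 := mg_vec (sc (f s)) (sb 1 ∘ vK) H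
    have h0 : sc (f s) ∘ (sb 1 ∘ vK) = sb (f s) ∘ vK := by
      funext i
      have := RingHom.congr_fun (sc_sb (f s) 1) (vK i)
      rw [mul_one] at this
      exact this
    have h0' : sc (f s) ∘ (C ∘ vK) = C ∘ vK := by
      funext i
      exact RingHom.congr_fun (sc_C (f s)) (vK i)
    rw [hH1, h0, h0', ← eg] at h1
    have h2 : sb (f s) ∘ vK = F ∘ (sb s ∘ v) := by
      have h3 : (sb (f s)).comp (mapRingHom f) = F.comp (sb s) := by
        ext a
        · simp [sb, hF]
        · simp [sb, hF]
      rw [hvK, ← Function.comp_assoc, ← Function.comp_assoc, ← RingHom.coe_comp, h3]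
      rfl
    have h4 : C ∘ vK = F ∘ (C ∘ v) := by
      funext i
      simp [hvK, hF]
    rw [h2, h4, vec_map] at h1
    funext i
    exact hFi (congrFun h1 i)
  · apply Units.ext
    ext1 i j
    apply hfi
    show mapRingHom f ((g i j).eval 0) = mapRingHom f ((1 : Matrix ι ι A[X]) i j)
    have h5 : mapRingHom f ((g i j).eval 0) = (F (g i j)).eval 0 := by
      have h6 : (mapRingHom f).comp (evalRingHom (0 : A[X])) =
          (evalRingHom (0 : K[X])).comp F := by
        ext a <;> simp [hF]
      exact RingHom.congr_fun h6 (g i j)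
    rw [h5, ← hg i j]
    have h7 : (mg (evalRingHom (0 : K[X])) (mg (sc (f s)) H) : Matrix ι ι K[X]) = 1 := by
      rw [mg_comp, ev_sc, hH2, Units.val_one]
    have h8 := congrFun (congrFun h7 i) j
    rw [coe_mg, Matrix.map_apply] at h8
    rw [← coe_evalRingHom, h8, Matrix.one_apply, Matrix.one_apply]
    split_ifs <;> simp

lemma vaserstein {A : Type u} [CommRing A] [IsDomain A] (v : ι → A[X])
    (hloc : ∀ (q : Ideal A) [q.IsMaximal], ∃ j₀ : ι,
      GLR (mapRingHom (algebraMap A (Localization.AtPrime q)) ∘ v) (Pi.single j₀ 1)) (a : A) :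
    ∃ σ : (Matrix ι ι A[X])ˣ, Matrix.vecMul v (σ : Matrix ι ι A[X]) = (fun i => C ((v i).eval a)) ∧
      mg (evalRingHom a) σ = 1 := by
  apply VS_spec
  by_contra hcon
  have hne : VS v ≠ ⊤ := fun h => hcon (by rw [h]; trivial)
  obtain ⟨q, hq, hle⟩ := Ideal.exists_le_maximal _ hne
  obtain ⟨j₀, G, hG⟩ := hloc q
  set f := algebraMap A (Localization.AtPrime q) with hf
  set G0 : (Matrix ι ι (Localization.AtPrime q)[X])ˣ :=
    mg ((C : Localization.AtPrime q →+* (Localization.AtPrime q)[X]).comp (evalRingHom 0)) G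
    with hG0
  have h1 := mg_vec ((C : Localization.AtPrime q →+* (Localization.AtPrime q)[X]).comp
    (evalRingHom 0)) (mapRingHom f ∘ v) G
  rw [← hG0, hG] at h1
  have h2 : ((C : Localization.AtPrime q →+* (Localization.AtPrime q)[X]).comp
    (evalRingHom 0)) ∘ (Pi.single j₀ 1 : ι → (Localization.AtPrime q)[X]) = Pi.single j₀ 1 := by
    funext i
    by_cases hi : i = j₀
    · subst hi; simp
    · simp [hi]
  rw [h2] at h1
  have h3 : Matrix.vecMul (mapRingHom f ∘ v)
      ((G * G0⁻¹ : (Matrix ι ι (Localization.AtPrime q)[X])ˣ) :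
        Matrix ι ι (Localization.AtPrime q)[X]) = fun i => C (f ((v i).eval 0)) := by
    rw [Units.val_mul, ← Matrix.vecMul_vecMul, hG, ← h1, Matrix.vecMul_vecMul, ← Units.val_mul,
      mul_inv_cancel, Units.val_one, Matrix.vecMul_one]
    funext i
    simp only [Function.comp_apply, RingHom.coe_comp, coe_evalRingHom, coe_mapRingHom, eval_zero_map]
  have hinj : Function.Injective f :=
    IsLocalization.injective _ q.primeCompl_le_nonZeroDivisors
  have hden : HasDen f q.primeCompl := by
    intro b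
    obtain ⟨⟨x, m⟩, hx⟩ := IsLocalization.surj q.primeCompl b
    exact ⟨m, m.2, x, by rw [mul_comm]; exact hx⟩
  obtain ⟨s, hs, hs'⟩ := VS_loc f hinj q.primeCompl hden v (G * G0⁻¹) h3
  exact hs (hle hs')

/-- Horrocks for rows with a unit coefficient in top degree -/
lemma horrocks_unit {O : Type u} [CommRing O] [IsLocalRing O]
    (h3 : ∀ i j : ι, ∃ k, k ≠ i ∧ k ≠ j) (v : ι → O[X]) (i₀ : ι) (d : ℕ)
    (hd : (v i₀).natDegree ≤ d) (hc : IsUnit ((v i₀).coeff d))
    (hu : Ideal.span (Set.range v) = ⊤) (j₀ : ι) : GLR v (Pi.single j₀ 1) := by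
  obtain ⟨c, hc⟩ := hc
  have h1 := glr_scale v i₀ (Units.map (C : O →+* O[X]).toMonoidHom c⁻¹)
  set w := Function.update v i₀ (v i₀ * (Units.map (C : O →+* O[X]).toMonoidHom c⁻¹ : O[X]ˣ))
    with hw
  have hw0 : w i₀ = v i₀ * C ((c⁻¹ : Oˣ) : O) := by
    rw [hw, Function.update_self]
    rfl
  have hcoef : (w i₀).coeff d = 1 := by
    rw [hw0, coeff_mul_C, ← hc, Units.mul_inv]
  have hnd : (w i₀).natDegree ≤ d := by
    rw [hw0]
    exact (natDegree_mul_C_le _ _).trans hd
  have hnd' : (w i₀).natDegree = d :=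
    le_antisymm hnd (le_natDegree_of_ne_zero (by rw [hcoef]; exact one_ne_zero))
  have hmon : (w i₀).Monic := by
    rw [Monic, leadingCoeff, hnd', hcoef]
  exact h1.trans (horrocks h3 d w i₀ hmon hnd' (h1.span_top hu) j₀).glr

/-- reflection as an additive map -/
noncomputable def rfl' {A : Type u} [CommRing A] (N : ℕ) : A[X] →+ A[X] where
  toFun := reflect N
  map_zero' := reflect_zero
  map_add' := fun f g => reflect_add f g N

lemma reflect_unimodular {A : Type u} [CommRing A] (w : ι → A[X]) (i₀ : ι) (d : ℕ)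
    (hm : (w i₀).coeff d = 1) (hd : ∀ i, (w i).natDegree ≤ d)
    (hu : Ideal.span (Set.range w) = ⊤) :
    Ideal.span (Set.range fun i => reflect d (w i)) = ⊤ := by
  have h1 : (1 : A[X]) ∈ Ideal.span (Set.range w) := by rw [hu]; trivial
  rw [Ideal.mem_span_range_iff_exists_fun] at h1
  obtain ⟨c, hc⟩ := h1
  set N := Finset.univ.sup fun i => (c i).natDegree with hN
  have h2 := congrArg (rfl' (N + d)) hc
  rw [map_sum] at h2
  have h3 : (rfl' (N + d) (1 : A[X])) = X ^ (N + d) := by
    show reflect (N + d) (1 : A[X]) = X ^ (N + d)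
    simp
  have h4 : (X ^ (N + d) : A[X]) ∈ Ideal.span (Set.range fun i => reflect d (w i)) := by
    rw [← h3, ← h2]
    refine Ideal.sum_mem _ fun i _ => ?_
    show reflect (N + d) (c i * w i) ∈ _
    rw [reflect_mul (c i) (w i) (Finset.le_sup (f := fun i => (c i).natDegree)
      (Finset.mem_univ i)) (hd i)]
    exact Ideal.mul_mem_left _ _ (Ideal.subset_span ⟨i, rfl⟩)
  have h5 : reflect d (w i₀) ∈ Ideal.span (Set.range fun i => reflect d (w i)) :=
    Ideal.subset_span ⟨i₀, rfl⟩
  have h6 : IsCoprime (X : A[X]) (reflect d (w i₀)) := by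
    refine ⟨- divX (reflect d (w i₀)), 1, ?_⟩
    have h7 := divX_mul_X_add (reflect d (w i₀))
    have h8 : (reflect d (w i₀)).coeff 0 = 1 := by
      rw [coeff_reflect, revAt_le (Nat.zero_le d), Nat.sub_zero, hm]
    rw [h8, map_one] at h7
    linear_combination (-1 : A[X]) * h7
  obtain ⟨a, b, hab⟩ := h6.pow_left (m := N + d)
  rw [Ideal.eq_top_iff_one, ← hab]
  exact Ideal.add_mem _ (Ideal.mul_mem_left _ _ h4) (Ideal.mul_mem_left _ _ h5)

lemma span_map_top {A B : Type u} [CommRing A] [CommRing B] (f : A →+* B) (w : ι → A)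
    (hu : Ideal.span (Set.range w) = ⊤) : Ideal.span (Set.range (f ∘ w)) = ⊤ := by
  have h1 := congrArg (Ideal.map f) hu
  rw [Ideal.map_span, Ideal.map_top, ← Set.range_comp] at h1
  exact h1

lemma exists_unit {O : Type u} [CommRing O] [IsLocalRing O] (w : ι → O)
    (hu : Ideal.span (Set.range w) = ⊤) : ∃ i, IsUnit (w i) := by
  by_contra hcon
  push Not at hcon
  have h1 : Ideal.span (Set.range w) ≤ IsLocalRing.maximalIdeal O := by
    rw [Ideal.span_le]
    rintro _ ⟨i, rfl⟩
    exact hcon i
  rw [hu] at h1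
  exact (IsLocalRing.maximalIdeal.isMaximal O).ne_top (top_le_iff.mp h1)

lemma main_row {A : Type u} [CommRing A] [IsDomain A] (h3 : ∀ i j : ι, ∃ k, k ≠ i ∧ k ≠ j)
    (v : ι → A[X]) (i₀ : ι) (hm : (v i₀).Monic) (hu : Ideal.span (Set.range v) = ⊤) (j₀ : ι) :
    Isot v (Pi.single j₀ 1) := by
  set d := (v i₀).natDegree with hd
  set w : ι → A[X] := fun j => if j = i₀ then v j else v j %ₘ v i₀ with hw
  have h1 : Isot v w := by
    have := isot_adds v i₀ (fun j => - (v j /ₘ v i₀))
    convert this using 1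
    funext j
    rw [hw]
    by_cases hj : j = i₀
    · simp [hj]
    · simp only [hj, if_false]
      have := modByMonic_add_div (v j) (v i₀)
      linear_combination this
  have hw0 : w i₀ = v i₀ := by simp [hw]
  have hwm : (w i₀).Monic := by rw [hw0]; exact hm
  have hwc : (w i₀).coeff d = 1 := by rw [hw0]; exact hm
  have hwc' : ∀ j, j ≠ i₀ → (w j).coeff d = 0 := by
    intro j hj
    simp only [hw, hj, if_false]
    have := degree_modByMonic_lt (v j) hm
    rw [degree_eq_natDegree hm.ne_zero, ← hd] at this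
    exact coeff_eq_zero_of_degree_lt this
  have hwd : ∀ j, (w j).natDegree ≤ d := by
    intro j
    by_cases hj : j = i₀
    · rw [hj, hw0]
    · simp only [hw, hj, if_false]
      exact natDegree_modByMonic_le _ hm
  have hwu := h1.glr.span_top hu
  set f : ι → A[X] := fun i => reflect d (w i) with hf
  have hfu : Ideal.span (Set.range f) = ⊤ := reflect_unimodular w i₀ d hwc hwd hwu
  obtain ⟨σ, hσ1, hσ2⟩ := vaserstein w (fun q hq => ⟨j₀, (horrocks h3
    ((mapRingHom (algebraMap A (Localization.AtPrime q)) ∘ w) i₀).natDegree _ i₀ (hwm.map _) rfl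
    (span_map_top _ w hwu) j₀).glr⟩) 1
  obtain ⟨τ, hτ1, hτ2⟩ := vaserstein f (fun q hq => by
    refine ⟨j₀, ?_⟩
    have h4 : Ideal.span (Set.range ((algebraMap A (Localization.AtPrime q)).comp
        (evalRingHom 0) ∘ w)) = ⊤ := span_map_top _ w hwu
    obtain ⟨i, hi⟩ := exists_unit _ h4
    refine horrocks_unit h3 _ i d ?_ ?_ (span_map_top _ f hfu) j₀
    · refine natDegree_map_le.trans ?_
      exact (natDegree_reflect_le).trans (max_le le_rfl (hwd i))
    · have h5 : ((mapRingHom (algebraMap A (Localization.AtPrime q)) ∘ f) i).coeff d =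
          ((algebraMap A (Localization.AtPrime q)).comp (evalRingHom 0) ∘ w) i := by
        simp only [Function.comp_apply, coe_mapRingHom, coeff_map, hf, RingHom.coe_comp,
          coe_evalRingHom, coeff_reflect, revAt_le le_rfl, Nat.sub_self, coeff_zero_eq_eval_zero]
      rw [h5]
      exact hi) 0
  set S : A[X] →+* A[X][X] := eval₂RingHom (C.comp C) (1 + X * C (X - 1)) with hS
  set L : A[X] →+* A[X][X] := mapRingHom C with hL
  have e1 : (evalRingHom (0 : A[X])).comp S = (C : A →+* A[X]).comp (evalRingHom 1) := by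
    refine Polynomial.ringHom_ext (fun a => ?_) ?_ <;> simp [hS]
  have e2 : (evalRingHom (0 : A[X])).comp L = (C : A →+* A[X]).comp (evalRingHom 0) := by
    refine Polynomial.ringHom_ext (fun a => ?_) ?_ <;> simp [hL]
  have e3 : (evalRingHom (1 : A[X])).comp S = RingHom.id _ := by
    refine Polynomial.ringHom_ext (fun a => ?_) ?_ <;> simp [hS]
  have e4 : (evalRingHom (1 : A[X])).comp L = (C : A →+* A[X]).comp (evalRingHom 1) := by
    refine Polynomial.ringHom_ext (fun a => ?_) ?_ <;> simp [hL]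
  have h6 : Isot w (Pi.single i₀ 1) := by
    refine ⟨mg S σ * mg L τ, ?_, ?_⟩
    · rw [mg_mul, mg_comp, mg_comp, e1, e2, ← mg_comp, ← mg_comp, hσ2, hτ2, mg_one, one_mul]
    · rw [mg_mul, mg_comp, mg_comp, e3, e4, mg_id, Units.val_mul, ← Matrix.vecMul_vecMul, hσ1]
      have h7 := mg_vec ((C : A →+* A[X]).comp (evalRingHom 1)) f τ
      have h8 : ((C : A →+* A[X]).comp (evalRingHom 1)) ∘ f = fun i => C ((w i).eval 1) := by
        funext i
        simp only [Function.comp_apply, RingHom.coe_comp, coe_evalRingHom, hf]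
        congr 1
        have : Invertible (1 : A) := invertibleOne
        have := eval₂_reflect_mul_pow (RingHom.id A) (1 : A) d (w i) (hwd i)
        simpa using this
      rw [h8, hτ1] at h7
      rw [h7]
      funext i
      simp only [Function.comp_apply, RingHom.coe_comp, coe_evalRingHom, eval_C, hf]
      rw [← coeff_zero_eq_eval_zero, coeff_reflect, revAt_le (Nat.zero_le d), Nat.sub_zero]
      by_cases hi : i = i₀
      · rw [hi, hwc]; simp
      · rw [hwc' i hi]; simp [hi]
  exact h1.trans (h6.trans (isot_single i₀ j₀))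

end General

end HR

open HR in
/-- A unimodular row of length at least three over `C[X]` (`C` a domain) with a monic entry is
carried to `(1, 0, ..., 0)` by an invertible matrix which is isotopic to the identity. -/
theorem monic_row {C : Type u} [CommRing C] [IsDomain C] {r : ℕ} (v : Fin (r + 3) → C[X])
    (i₀ : Fin (r + 3)) (hmonic : (v i₀).Monic) (hu : Ideal.span (Set.range v) = ⊤) :
    ∃ G G' : Matrix (Fin (r + 3)) (Fin (r + 3)) C[X][X], G * G' = 1 ∧ G' * G = 1 ∧
      G.map (eval 0) = 1 ∧ Matrix.vecMul v (G.map (eval 1)) = Pi.single 0 1 := by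
  have h3 : ∀ i j : Fin (r + 3), ∃ k, k ≠ i ∧ k ≠ j := by
    intro i j
    by_contra hcon
    push Not at hcon
    have h1 : (Finset.univ : Finset (Fin (r + 3))) ⊆ {i, j} := by
      intro k _
      rw [Finset.mem_insert, Finset.mem_singleton]
      by_cases hk : k = i
      · exact Or.inl hk
      · exact Or.inr (hcon k hk)
    have h2 := (Finset.card_le_card h1).trans Finset.card_le_two
    rw [Finset.card_univ, Fintype.card_fin] at h2
    omega
  obtain ⟨G, hG1, hG2⟩ := main_row h3 v i₀ hmonic hu 0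
  refine ⟨G, (G⁻¹ : (Matrix (Fin (r + 3)) (Fin (r + 3)) C[X][X])ˣ), ?_, ?_, ?_, ?_⟩
  · rw [← Units.val_mul, mul_inv_cancel, Units.val_one]
  · rw [← Units.val_mul, inv_mul_cancel, Units.val_one]
  · have := congrArg Units.val hG1
    rw [coe_mg, Units.val_one] at this
    exact this
  · exact hG2

end Pool.Agent.H71.AAE
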